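import Pool.Agent.H86.Q3

set_option autoImplicit false

namespace Pool.Agent.Results.MP_b0c12c_nt.GapsAtFewPowerDistances
open Finset
open Classical

/-- Long and short gaps at few-power distances, around the points of arbitrary dense sets. For all bases `b ≥ 2`, all `r`, all
`0 < lam < 1`, `0 < α ≤ 1` and `ε > 0` there are `k`, `c > 0` and `N₀` such that for every `N ≥ N₀` there is a finite nonempty set `D` of
positive integers up to `ε N`, each a sum of at most `k` powers of `b`, with the following property. For EVERY set `A` of at least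
`α N` integers in `(N, 2N]` all but at most `ε |D|^r` of the `r`-tuples `d` of elements of `D` are such that for every set `I` of
places at least `c |A|` of the `x ∈ A` have a prime `p` with `x + d i < p ≤ x + d i + lam log N` for each `i ∈ I` and no prime `p` with
`x + d i < p ≤ x + d i + (1 - lam) log N` for each `i ∉ I`. -/
theorem result (b : ℕ) (hb : 2 ≤ b) (r : ℕ) (lam α ε : ℝ) (hlam : 0 < lam) (hlam1 : lam < 1) (hα : 0 < α) (hα1 : α ≤ 1) (hε : 0 < ε) :
    ∃ (k : ℕ) (c : ℝ) (N₀ : ℕ), 0 < c ∧ ∀ N : ℕ, N₀ ≤ N → ∃ D : Finset ℕ, D.Nonempty ∧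
      (∀ d ∈ D, 1 ≤ d ∧ (d : ℝ) ≤ ε * N ∧ ∃ l : List ℕ, l.length ≤ k ∧ d = (l.map (fun e => b ^ e)).sum) ∧
      ∀ A : Finset ℕ, A ⊆ Ioc N (2 * N) → α * N ≤ A.card →
        (((Fintype.piFinset (fun _ : Fin r => D)).filter (fun d : Fin r → ℕ => ¬ ∀ I : Finset (Fin r), c * A.card ≤
          ((A.filter (fun x : ℕ =>
            (∀ i ∈ I, ∃ p : ℕ, p.Prime ∧ x + d i < p ∧ (p : ℝ) ≤ ((x + d i : ℕ) : ℝ) + lam * Real.log N) ∧
            (∀ i ∉ I, ∀ p : ℕ, p.Prime → x + d i < p → ((x + d i : ℕ) : ℝ) + (1 - lam) * Real.log N < (p : ℝ)))).card : ℝ))).card : ℝ) ≤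
          ε * (D.card : ℝ) ^ r := by
  obtain ⟨n₁, hit⟩ := Pool.Agent.H86.PG.iter lam hlam hlam1
  obtain ⟨c, δ₀, hc, hδ₀, hit⟩ := hit r α (ε / 2 ^ r) hα hα1 (by positivity)
  obtain ⟨δ', hδ'⟩ : ∃ δ' : ℝ, δ' = min (min 1 δ₀) ε := ⟨_, rfl⟩
  have hδ'0 : 0 < δ' := by rw [hδ']; positivity
  have hδ'1 : δ' ≤ 1 := by rw [hδ']; exact (min_le_left _ _).trans (min_le_left _ _)
  have hδ'2 : δ' ≤ δ₀ := by rw [hδ']; exact (min_le_left _ _).trans (min_le_right _ _)
  have hδ'3 : δ' ≤ ε := by rw [hδ']; exact min_le_right _ _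
  obtain ⟨b', e, hb', hbe⟩ : ∃ b' e : ℕ, 3 ≤ b' ∧ b' = b ^ e := by
    by_cases h : 3 ≤ b
    · exact ⟨b, 1, h, by simp⟩
    · exact ⟨4, 2, by norm_num, by rw [show b = 2 by omega]; norm_num⟩
  obtain ⟨k, n₂, hmain⟩ := Pool.Agent.H86.PW.shift3 b' hb' (lam / 2) δ' (by positivity) hδ'0 hδ'1
  refine ⟨k, c, n₁ + n₂ + 2, hc, fun N hN => ?_⟩
  obtain ⟨D, hD, hD1, hD2⟩ := hmain N (by omega)
  have hN0 : (2 : ℝ) ≤ N := by exact_mod_cast (by omega : 2 ≤ N)
  refine ⟨D, hD, fun d hd => ?_, fun A hA hAα => ?_⟩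
  · obtain ⟨h1, ⟨l, hl1, hl2⟩, h3⟩ := hD1 d hd
    refine ⟨h1, h3.trans (mul_le_mul_of_nonneg_right hδ'3 (by linarith)), l.map (fun j => e * j), by rw [List.length_map]; exact hl1, ?_⟩
    rw [hl2, List.map_map]
    congr 1
    apply List.map_congr_left
    intro j _
    simp only [Function.comp]
    rw [hbe, ← pow_mul]
  have hDN : ∀ d ∈ D, d ≤ N := by
    intro d hd
    have h1 := (hD1 d hd).2.2
    have h2 : δ' * N ≤ 1 * N := mul_le_mul_of_nonneg_right hδ'1 (by linarith)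
    have h3 : (d : ℝ) ≤ N := by linarith
    exact_mod_cast h3
  have hall := fun s => hit N (by omega) δ' D hδ'0.le hδ'2 hDN hD2 A hA hAα s
  have hsub : ((Fintype.piFinset (fun _ : Fin r => D)).filter (fun d : Fin r → ℕ => ¬ ∀ I : Finset (Fin r), c * A.card ≤
          ((A.filter (fun x : ℕ =>
            (∀ i ∈ I, ∃ p : ℕ, p.Prime ∧ x + d i < p ∧ (p : ℝ) ≤ ((x + d i : ℕ) : ℝ) + lam * Real.log N) ∧
            (∀ i ∉ I, ∀ p : ℕ, p.Prime → x + d i < p → ((x + d i : ℕ) : ℝ) + (1 - lam) * Real.log N < (p : ℝ)))).card : ℝ))) ⊆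
      (univ : Finset (Fin r → Bool)).biUnion (fun s => Pool.Agent.H86.PG.BadT lam N D A r c s) := by
    intro d hd
    rw [mem_filter] at hd
    obtain ⟨h1, h2⟩ := hd
    push Not at h2
    obtain ⟨I, hI⟩ := h2
    rw [mem_biUnion]
    refine ⟨fun i => decide (i ∈ I), mem_univ _, ?_⟩
    unfold Pool.Agent.H86.PG.BadT
    rw [mem_filter]
    refine ⟨h1, ?_⟩
    refine lt_of_le_of_lt ?_ hI
    apply Nat.cast_le.2
    apply card_le_card
    intro x hx
    rw [mem_filter] at hx ⊢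
    refine ⟨hx.1, fun i hi => ?_, fun i hi => ?_⟩
    · have h3 := hx.2 i
      unfold Pool.Agent.H86.PG.PP at h3
      rw [if_pos (by simpa using hi)] at h3
      exact h3
    · have h3 := hx.2 i
      unfold Pool.Agent.H86.PG.PP at h3
      rw [if_neg (by simpa using hi)] at h3
      exact h3
  refine (Nat.cast_le.2 ((card_le_card hsub).trans card_biUnion_le)).trans ?_
  push_cast
  refine (sum_le_sum (fun s _ => hall s)).trans ?_
  rw [sum_const, card_univ, nsmul_eq_mul]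
  simp only [Fintype.card_fun, Fintype.card_bool, Fintype.card_fin]
  push_cast
  have : (2 : ℝ) ^ r * (ε / 2 ^ r * (D.card : ℝ) ^ r) = ε * (D.card : ℝ) ^ r := by
    field_simp
  rw [this]

end Pool.Agent.Results.MP_b0c12c_nt.GapsAtFewPowerDistances
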